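import Pool.Agent.Helper15.SI.Defs

/-! Project SI, leaf P2: symmetric strings, the number of them, recursion for the residue classes. -/

set_option autoImplicit false

namespace Pool.Agent.Helper15.SI

open Finset Pool.Agent.Helper10.SQ Pool.Agent.Helper10.P4

/-- The strings of length one. -/
theorem SS_one_card : (SS 1).card = 10 := by
  classical
  have h : SS 1 = range 10 := by
    ext N
    unfold SS Sy
    simp only [Finset.mem_filter, Finset.mem_range, pow_one]
    constructor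
    · rintro ⟨h1, -⟩
      exact h1
    · intro h1
      refine ⟨h1, h1, fun i hi => ?_⟩
      have : i = 0 := by omega
      subst this
      simp
  rw [h, Finset.card_range]

/-- The step of length two (P1b). -/
def Step : Prop := ∀ (l c N : ℕ), c < 10 → ((Sy (l + 2) N ∧ N / 10 ^ (l + 1) = c) ↔
    ∃ M, Sy l M ∧ N = c * (10 ^ (l + 1) + 1) + 10 * M)

theorem mem_SS (l N : ℕ) : N ∈ SS l ↔ Sy l N := by
  classical
  unfold SS
  rw [Finset.mem_filter, Finset.mem_range]
  exact ⟨fun h => h.2, fun h => ⟨h.1, h⟩⟩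

theorem lead_lt (l N : ℕ) (h : Sy (l + 2) N) : N / 10 ^ (l + 1) < 10 := by
  rw [Nat.div_lt_iff_lt_mul (by positivity)]
  calc N < 10 ^ (l + 2) := h.1
    _ = 10 * 10 ^ (l + 1) := by ring

theorem card_step (hst : Step) (l : ℕ) : (SS (l + 2)).card = 10 * (SS l).card := by
  classical
  have h : SS (l + 2) = ((range 10) ×ˢ (SS l)).image (fun x => x.1 * (10 ^ (l + 1) + 1) + 10 * x.2) := by
    ext N
    rw [mem_SS, Finset.mem_image]
    constructor
    · intro hN
      obtain ⟨M, hM, he⟩ := (hst l (N / 10 ^ (l + 1)) N (lead_lt l N hN)).1 ⟨hN, rfl⟩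
      refine ⟨(N / 10 ^ (l + 1), M), ?_, he.symm⟩
      rw [Finset.mem_product, Finset.mem_range, mem_SS]
      exact ⟨lead_lt l N hN, hM⟩
    · rintro ⟨⟨c, M⟩, hx, rfl⟩
      rw [Finset.mem_product, Finset.mem_range, mem_SS] at hx
      exact ((hst l c _ hx.1).2 ⟨M, hx.2, rfl⟩).1
  rw [h, Finset.card_image_of_injOn, Finset.card_product, Finset.card_range]
  rintro ⟨c, M⟩ hx ⟨c', M'⟩ hx' he
  rw [Finset.mem_coe, Finset.mem_product, Finset.mem_range, mem_SS] at hx hx'
  have he1 : c * (10 ^ (l + 1) + 1) + 10 * M = c' * (10 ^ (l + 1) + 1) + 10 * M' := he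
  have h1 := ((hst l c _ hx.1).2 ⟨M, hx.2, rfl⟩).2
  have h2 := ((hst l c' _ hx'.1).2 ⟨M', hx'.2, rfl⟩).2
  have h3 : c = c' := by
    rw [he1] at h1
    rw [h2] at h1
    exact h1.symm
  subst h3
  have h4 : M = M' := by omega
  rw [h4]

theorem card_SS_of (hst : Step) (m : ℕ) : (SS (2 * m + 1)).card = 10 ^ (m + 1) := by
  induction m with
  | zero => simpa using SS_one_card
  | succ m ih =>
    have : 2 * (m + 1) + 1 = (2 * m + 1) + 2 := by ring
    rw [this, card_step hst, ih]
    ring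

theorem sc_zero (q b : ℕ) : sc 0 q b ≤ 10 := by
  unfold sc
  refine (Finset.card_filter_le _ _).trans ?_
  exact SS_one_card.le

theorem sc_succ_of (hst : Step)
    (hpal : ∀ l N : ℕ, 1 ≤ l → (IsPalD l N ↔ Sy l N ∧ 10 ^ (l - 1) ≤ N))
    (m q b b' : ℕ) (hq : q.Coprime 10) (hb : 10 * b' ≡ b [MOD q]) :
    sc (m + 1) q b = cl (m + 1) q b + sc m q b' := by
  classical
  unfold sc cl
  have hl : 2 * (m + 1) + 1 = (2 * m + 1) + 2 := by ring
  set l := 2 * m + 1 with hldef
  rw [hl]
  have h1 : ((SS (l + 2)).filter (fun M => M ≡ b [MOD q])) =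
      ((Pal (m + 1)).filter (fun N => N ≡ b [MOD q])) ∪
        ((SS l).filter (fun M => M ≡ b' [MOD q])).image (fun M => 10 * M) := by
    ext N
    rw [Finset.mem_union, Finset.mem_filter, mem_SS, Finset.mem_filter, Finset.mem_image]
    have hP : N ∈ Pal (m + 1) ↔ Sy (l + 2) N ∧ 10 ^ (l + 1) ≤ N := by
      unfold Pal
      rw [Finset.mem_filter, Finset.mem_range, hl, hpal (l + 2) N (by omega)]
      have : l + 2 - 1 = l + 1 := by omega
      rw [this]
      exact ⟨fun h => h.2, fun h => ⟨h.1.1, h⟩⟩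
    rw [hP]
    constructor
    · rintro ⟨hN, hNb⟩
      by_cases hc : 10 ^ (l + 1) ≤ N
      · exact Or.inl ⟨⟨hN, hc⟩, hNb⟩
      · right
        push Not at hc
        have h0 : N / 10 ^ (l + 1) = 0 := Nat.div_eq_of_lt hc
        obtain ⟨M, hM, he⟩ := (hst l 0 N (by norm_num)).1 ⟨hN, h0⟩
        rw [zero_mul, zero_add] at he
        refine ⟨M, ?_, he.symm⟩
        rw [Finset.mem_filter, mem_SS]
        refine ⟨hM, ?_⟩
        have h2 : 10 * M ≡ 10 * b' [MOD q] := by
          rw [← he]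
          exact hNb.trans hb.symm
        exact Nat.ModEq.cancel_left_of_coprime hq h2
    · rintro (⟨⟨hN, -⟩, hNb⟩ | ⟨M, hM, rfl⟩)
      · exact ⟨hN, hNb⟩
      · rw [Finset.mem_filter, mem_SS] at hM
        have h2 := ((hst l 0 (10 * M) (by norm_num)).2 ⟨M, hM.1, by ring⟩).1
        exact ⟨h2, (hM.2.mul_left 10).trans hb⟩
  rw [h1, Finset.card_union_of_disjoint, Finset.card_image_of_injective _ (fun a b h => by
    have h3 : 10 * a = 10 * b := h
    omega)]
  rw [Finset.disjoint_left]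
  intro N hN hN'
  rw [Finset.mem_filter] at hN
  rw [Finset.mem_image] at hN'
  obtain ⟨M, hM, rfl⟩ := hN'
  rw [Finset.mem_filter, mem_SS] at hM
  have h2 : 10 ^ (l + 1) ≤ 10 * M := by
    have h3 := hN.1
    unfold Pal at h3
    rw [Finset.mem_filter, hl, hpal (l + 2) (10 * M) (by omega)] at h3
    have : l + 2 - 1 = l + 1 := by omega
    rw [this] at h3
    exact h3.2.2
  have h3 : M < 10 ^ l := hM.1.1
  have h4 : 10 ^ (l + 1) = 10 * 10 ^ l := by ring
  omega

end Pool.Agent.Helper15.SI
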